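import Pool.Agent.H.MP_617eb0_gt.C

set_option autoImplicit false

namespace Pool.Agent.CG

open Finset Module MeasureTheory
open scoped RealInnerProductSpace ENNReal NNReal

variable {E : Type*} [NormedAddCommGroup E] [InnerProductSpace ℝ E]

structure Good (L : Set E) : Prop where
  cpt : IsCompact L
  cvx : Convex ℝ L
  ne : L.Nonempty

noncomputable def pr (L : Set E) (x : E) : E :=
  Classical.epsilon (fun p => p ∈ L ∧ ∀ w ∈ L, ⟪x - p, w - p⟫ ≤ 0)

noncomputable def nv (L : Set E) (x : E) : E := x - pr L x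

lemma pr_spec {L : Set E} (h : Good L) (x : E) :
    pr L x ∈ L ∧ ∀ w ∈ L, ⟪x - pr L x, w - pr L x⟫ ≤ 0 := by
  apply Classical.epsilon_spec (p := fun p => p ∈ L ∧ ∀ w ∈ L, ⟪x - p, w - p⟫ ≤ 0)
  obtain ⟨v, hv, h2⟩ := exists_norm_eq_iInf_of_complete_convex h.ne h.cpt.isComplete h.cvx x
  exact ⟨v, hv, (norm_eq_iInf_iff_real_inner_le_zero h.cvx hv).mp h2⟩

lemma firm {L : Set E} {x x' p p' : E} (hp : p ∈ L) (hp' : p' ∈ L)
    (h : ∀ w ∈ L, ⟪x - p, w - p⟫ ≤ 0) (h' : ∀ w ∈ L, ⟪x' - p', w - p'⟫ ≤ 0) :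
    0 ≤ ⟪(x - p) - (x' - p'), p - p'⟫ := by
  have h1 := h p' hp'
  have h2 := h' p hp
  have : ⟪(x - p) - (x' - p'), p - p'⟫ = -⟪x - p, p' - p⟫ - ⟪x' - p', p - p'⟫ := by
    rw [inner_sub_left (x - p), ← neg_sub p' p, inner_neg_right]
  linarith

lemma pr_eq {L : Set E} (h : Good L) {x p : E} (hp : p ∈ L) (h2 : ∀ w ∈ L, ⟪x - p, w - p⟫ ≤ 0) :
    pr L x = p := by
  have h1 := firm (pr_spec h x).1 hp (pr_spec h x).2 h2
  have : x - pr L x - (x - p) = -(pr L x - p) := by abel
  rw [this, inner_neg_left, real_inner_self_eq_norm_sq] at h1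
  have : ‖pr L x - p‖ = 0 := by nlinarith [norm_nonneg (pr L x - p)]
  exact sub_eq_zero.mp (norm_eq_zero.mp this)

lemma nv_mono {L : Set E} (h : Good L) (x x' : E) :
    ‖nv L x - nv L x'‖ ^ 2 ≤ ⟪nv L x - nv L x', x - x'⟫ := by
  have h1 := firm (pr_spec h x).1 (pr_spec h x').1 (pr_spec h x).2 (pr_spec h x').2
  have : x - x' = (nv L x - nv L x') + (pr L x - pr L x') := by simp only [nv]; abel
  rw [this, inner_add_right, real_inner_self_eq_norm_sq]
  simp only [nv]
  linarith

lemma nv_lip {L : Set E} (h : Good L) : LipschitzWith 1 (nv L) := by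
  refine LipschitzWith.mk_one fun x x' => ?_
  rw [dist_eq_norm, dist_eq_norm]
  have h1 := nv_mono h x x'
  have h2 := real_inner_le_norm (nv L x - nv L x') (x - x')
  by_contra h3
  push Not at h3
  nlinarith [norm_nonneg (x - x')]

lemma infDist_eq {L : Set E} (h : Good L) (x : E) : Metric.infDist x L = ‖nv L x‖ := by
  rw [Metric.infDist_eq_iInf]
  simp only [dist_eq_norm]
  exact ((norm_eq_iInf_iff_real_inner_le_zero h.cvx (pr_spec h x).1).mpr (pr_spec h x).2).symm

lemma good_hull {S : Finset E} (hS : S.Nonempty) : Good (convexHull ℝ (S : Set E)) :=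
  ⟨S.finite_toSet.isCompact_convexHull ℝ, convex_convexHull ℝ _,
    by simpa using hS⟩

def R (S T : Finset E) : Set E :=
  {x | T ⊆ S ∧ ∀ v ∈ S, (v ∈ T ↔ ∀ w ∈ S,
    ⟪nv (convexHull ℝ (S : Set E)) x, w⟫ ≤ ⟪nv (convexHull ℝ (S : Set E)) x, v⟫)}

open Classical in
noncomputable def am (S : Finset E) (x : E) : Finset E :=
  S.filter fun v => ∀ w ∈ S,
    ⟪nv (convexHull ℝ (S : Set E)) x, w⟫ ≤ ⟪nv (convexHull ℝ (S : Set E)) x, v⟫

lemma mem_R {S T : Finset E} {x : E} : x ∈ R S T ↔ am S x = T := by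
  constructor
  · rintro ⟨h1, h2⟩
    ext v
    simp only [am, Finset.mem_filter]
    exact ⟨fun h => (h2 v h.1).mpr h.2, fun h => ⟨h1 h, (h2 v (h1 h)).mp h⟩⟩
  · rintro rfl
    exact ⟨Finset.filter_subset _ _, fun v hv => by simp [am, hv]⟩

lemma am_subset (S : Finset E) (x : E) : am S x ⊆ S := Finset.filter_subset _ _

lemma am_nonempty {S : Finset E} (hS : S.Nonempty) (x : E) : (am S x).Nonempty := by
  obtain ⟨v, hv, h⟩ := S.exists_max_image (fun v => ⟪nv (convexHull ℝ (S : Set E)) x, v⟫) hS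
  exact ⟨v, by simp only [am, Finset.mem_filter]; exact ⟨hv, h⟩⟩

lemma R_inner {S T : Finset E} (hS : S.Nonempty) {x : E} (hx : x ∈ R S T) {v : E} (hv : v ∈ T) :
    ⟪nv (convexHull ℝ (S : Set E)) x, v⟫ =
      ⟪nv (convexHull ℝ (S : Set E)) x, pr (convexHull ℝ (S : Set E)) x⟫ := by
  have hp := pr_spec (good_hull hS) x
  apply le_antisymm
  · have := hp.2 v (subset_convexHull ℝ _ (hx.1 hv))
    rw [inner_sub_right] at this
    simp only [nv]; linarith
  · exact EGK.le_of_hull S (innerSL ℝ (nv (convexHull ℝ (S : Set E)) x)) _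
      ((hx.2 v (hx.1 hv)).mp hv) hp.1

lemma R_pr {S T : Finset E} (hS : S.Nonempty) {x : E} (hx : x ∈ R S T) :
    pr (convexHull ℝ (S : Set E)) x ∈ convexHull ℝ (T : Set E) := by
  have hp := pr_spec (good_hull hS) x
  have hle : ∀ v ∈ S, ⟪nv (convexHull ℝ (S : Set E)) x, v⟫ ≤
      ⟪nv (convexHull ℝ (S : Set E)) x, pr (convexHull ℝ (S : Set E)) x⟫ := by
    intro v hv
    have := hp.2 v (subset_convexHull ℝ _ hv)
    rw [inner_sub_right] at this
    simp only [nv]; linarith
  refine EGK.face_eq S (innerSL ℝ (nv (convexHull ℝ (S : Set E)) x)) _ hle _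
    (convex_convexHull ℝ _) (fun v hv h => subset_convexHull ℝ _ ?_) hp.1 rfl
  refine (hx.2 v hv).mpr fun w hw => ?_
  have := hle w hw
  simp only [innerSL_apply_apply] at h
  linarith

lemma R_of {S T : Finset E} (hS : S.Nonempty) (hT : T ⊆ S) {p y : E}
    (hp : p ∈ convexHull ℝ (T : Set E)) {c : ℝ} (h1 : ∀ v ∈ T, ⟪y, v⟫ = c)
    (h2 : ∀ v ∈ S, v ∉ T → ⟪y, v⟫ < c) :
    p + y ∈ R S T ∧ nv (convexHull ℝ (S : Set E)) (p + y) = y := by
  have hle : ∀ v ∈ S, ⟪y, v⟫ ≤ c := fun v hv => by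
    by_cases h : v ∈ T
    · exact (h1 v h).le
    · exact (h2 v hv h).le
  have hpc : ⟪y, p⟫ = c := by
    apply le_antisymm
    · exact EGK.le_of_hull T (innerSL ℝ y) c (fun v hv => (h1 v hv).le) hp
    · have := EGK.le_of_hull T (-innerSL ℝ y) (-c) (fun v hv => by simp [h1 v hv]) hp
      simpa using this
  have h3 : pr (convexHull ℝ (S : Set E)) (p + y) = p := by
    refine pr_eq (good_hull hS) (convexHull_mono (by exact_mod_cast hT) hp) fun w hw => ?_
    have := EGK.le_of_hull S (innerSL ℝ y) c hle hw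
    simp only [innerSL_apply_apply] at this
    rw [add_sub_cancel_left, inner_sub_right]; linarith
  have h4 : nv (convexHull ℝ (S : Set E)) (p + y) = y := by simp [nv, h3]
  refine ⟨⟨hT, fun v hv => ?_⟩, h4⟩
  rw [h4]
  constructor
  · intro h w hw
    rw [h1 v h]; exact hle w hw
  · intro h
    by_contra h5
    have hTn : (T : Set E).Nonempty := by
      by_contra h6
      rw [Set.not_nonempty_iff_eq_empty] at h6
      rw [h6] at hp; simp at hp
    obtain ⟨w, hw⟩ := hTn
    have := h w (hT hw)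
    have := h2 v hv h5
    have := h1 w hw
    linarith

lemma R_lt {S T : Finset E} (hS : S.Nonempty) {x : E} (hx : x ∈ R S T) {v : E} (hv : v ∈ S)
    (hvT : v ∉ T) : ⟪nv (convexHull ℝ (S : Set E)) x, v⟫ <
      ⟪nv (convexHull ℝ (S : Set E)) x, pr (convexHull ℝ (S : Set E)) x⟫ := by
  by_contra h
  push Not at h
  apply hvT
  refine (hx.2 v hv).mpr fun w hw => ?_
  have := (pr_spec (good_hull hS) x).2 w (subset_convexHull ℝ _ hw)
  rw [inner_sub_right] at this
  simp only [nv] at h ⊢; linarith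

lemma R_convex {S : Finset E} (hS : S.Nonempty) (T : Finset E) : Convex ℝ (R S T) := by
  rw [convex_iff_forall_pos]
  intro x hx x' hx' a b ha hb hab
  set P := convexHull ℝ (S : Set E)
  have : a • x + b • x' = (a • pr P x + b • pr P x') + (a • nv P x + b • nv P x') := by
    simp only [nv, smul_sub]; abel
  rw [this]
  refine (R_of hS hx.1 (convex_convexHull ℝ _ (R_pr hS hx) (R_pr hS hx') ha.le hb.le hab)
    (c := a * ⟪nv P x, pr P x⟫ + b * ⟪nv P x', pr P x'⟫) (fun v hv => ?_) (fun v hv hvT => ?_)).1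
  · rw [inner_add_left, real_inner_smul_left, real_inner_smul_left, R_inner hS hx hv,
      R_inner hS hx' hv]
  · rw [inner_add_left, real_inner_smul_left, real_inner_smul_left]
    have h1 := R_lt hS hx hv hvT
    have h2 := R_lt hS hx' hv hvT
    nlinarith

lemma R_scale {S T : Finset E} (hS : S.Nonempty) {x : E} (hx : x ∈ R S T) {σ : ℝ} (hσ : 0 < σ) :
    x + (σ - 1) • nv (convexHull ℝ (S : Set E)) x ∈ R S T ∧
      nv (convexHull ℝ (S : Set E)) (x + (σ - 1) • nv (convexHull ℝ (S : Set E)) x) =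
        σ • nv (convexHull ℝ (S : Set E)) x := by
  set P := convexHull ℝ (S : Set E)
  have : x + (σ - 1) • nv P x = pr P x + σ • nv P x := by
    simp only [nv, sub_smul, one_smul]; abel
  rw [this]
  refine R_of hS hx.1 (R_pr hS hx) (c := σ * ⟪nv P x, pr P x⟫) (fun v hv => ?_) (fun v hv hvT => ?_)
  · rw [real_inner_smul_left, R_inner hS hx hv]
  · rw [real_inner_smul_left]
    exact mul_lt_mul_of_pos_left (R_lt hS hx hv hvT) hσ

variable [FiniteDimensional ℝ E]

noncomputable def N (T : Finset E) : Submodule ℝ E := (vectorSpan ℝ (T : Set E))ᗮ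

lemma R_nv {S T : Finset E} (hS : S.Nonempty) {x : E} (hx : x ∈ R S T) {o : E} (ho : o ∈ T) :
    nv (convexHull ℝ (S : Set E)) x = (N T).starProjection (x - o) := by
  set P := convexHull ℝ (S : Set E)
  symm
  refine Submodule.eq_starProjection_of_mem_orthogonal' (z := pr P x - o) ?_ ?_ (by simp [nv])
  · rw [N, Submodule.mem_orthogonal', vectorSpan_def]
    intro u hu
    induction hu using Submodule.span_induction with
    | mem w hw =>
      obtain ⟨a, ha, b, hb, rfl⟩ := hw
      simp only [vsub_eq_sub, inner_sub_right]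
      rw [R_inner hS hx ha, R_inner hS hx hb, sub_self]
    | zero => simp
    | add a b _ _ ha hb => simp [inner_add_right, ha, hb]
    | smul c a _ ha => simp [inner_smul_right, ha]
  · rw [N, Submodule.orthogonal_orthogonal, ← direction_affineSpan]
    exact AffineSubspace.vsub_mem_direction
      (convexHull_subset_affineSpan _ (R_pr hS hx)) (subset_affineSpan ℝ _ ho)

lemma det_scale (U : Submodule ℝ E) (σ : ℝ) :
    (ContinuousLinearMap.id ℝ E + (σ - 1) • U.starProjection).det = σ ^ finrank ℝ U := by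
  have hc := U.isCompl_orthogonal_of_hasOrthogonalProjection
  have h1 : ((ContinuousLinearMap.id ℝ E + (σ - 1) • U.starProjection : E →L[ℝ] E) : E →ₗ[ℝ] E) =
      (U.prodEquivOfIsCompl Uᗮ hc : (U × Uᗮ) →ₗ[ℝ] E) ∘ₗ
        (LinearMap.prodMap (σ • LinearMap.id : U →ₗ[ℝ] U) (LinearMap.id : Uᗮ →ₗ[ℝ] Uᗮ)) ∘ₗ
        ((U.prodEquivOfIsCompl Uᗮ hc).symm : E →ₗ[ℝ] (U × Uᗮ)) := by
    ext x
    obtain ⟨⟨a, b⟩, rfl⟩ := (U.prodEquivOfIsCompl Uᗮ hc).surjective x
    have ha : U.starProjection (a : E) = a := Submodule.starProjection_eq_self_iff.mpr a.2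
    have hb : U.starProjection (b : E) = 0 := (Submodule.starProjection_apply_eq_zero_iff _).mpr b.2
    simp only [LinearMap.comp_apply, LinearEquiv.coe_coe, LinearEquiv.symm_apply_apply]
    simp [Submodule.coe_prodEquivOfIsCompl', ha, hb, sub_smul]
    abel
  rw [ContinuousLinearMap.det, h1, LinearMap.det_conj, LinearMap.det_prodMap]
  simp

lemma trace_proj {ι : Type*} [Fintype ι] (b : OrthonormalBasis ι ℝ E) (U : Submodule ℝ E) :
    ∑ i, ⟪b i, U.starProjection (b i)⟫ = finrank ℝ U := by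
  have h : LinearMap.IsProj U (U.starProjection : E →ₗ[ℝ] E) :=
    ⟨fun x => U.starProjection_apply_mem x, fun x hx => Submodule.starProjection_eq_self_iff.mpr hx⟩
  rw [← h.trace, LinearMap.trace_eq_sum_inner _ b]
  rfl

variable [MeasurableSpace E] [BorelSpace E]

omit [FiniteDimensional ℝ E] in
lemma R_meas {S : Finset E} (hS : S.Nonempty) (T : Finset E) : MeasurableSet (R S T) := by
  have hc := (nv_lip (good_hull hS)).continuous
  by_cases hT : T ⊆ S
  · have : R S T = ⋂ v ∈ S, {x | v ∈ T ↔ ∀ w ∈ S,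
        ⟪nv (convexHull ℝ (S : Set E)) x, w⟫ ≤ ⟪nv (convexHull ℝ (S : Set E)) x, v⟫} := by
      ext x; simp [R, hT]
    rw [this]
    refine Finset.measurableSet_biInter _ fun v _ => ?_
    have h1 : MeasurableSet {x | ∀ w ∈ S,
        ⟪nv (convexHull ℝ (S : Set E)) x, w⟫ ≤ ⟪nv (convexHull ℝ (S : Set E)) x, v⟫} := by
      simp only [Set.setOf_forall]
      exact Finset.measurableSet_biInter _ fun w _ =>
        (isClosed_le (by fun_prop) (by fun_prop)).measurableSet
    by_cases hv : v ∈ T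
    · simpa [hv] using h1
    · simp only [hv, false_iff]
      exact h1.compl
  · have : R S T = ∅ := by ext x; simp [R, hT]
    rw [this]; exact MeasurableSet.empty

lemma scale_int {S : Finset E} (hS : S.Nonempty) (T : Finset E) {σ : ℝ} (hσ : 0 < σ)
    (g : E → ℝ≥0∞) :
    ∫⁻ x in R S T, g (σ⁻¹ • nv (convexHull ℝ (S : Set E)) x) =
      ENNReal.ofReal (σ ^ finrank ℝ (N T)) * ∫⁻ x in R S T, g (nv (convexHull ℝ (S : Set E)) x) := by
  set P := convexHull ℝ (S : Set E)
  rcases T.eq_empty_or_nonempty with rfl | ⟨o, ho⟩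
  · have : R S ∅ = ∅ := by
      ext x
      simp only [Set.mem_empty_iff_false, iff_false, mem_R]
      exact (am_nonempty hS x).ne_empty
    simp [this]
  let f : E → E := fun x => x + (σ - 1) • nv P x
  have himg : f '' R S T = R S T := by
    apply Set.Subset.antisymm
    · rintro _ ⟨x, hx, rfl⟩; exact (R_scale hS hx hσ).1
    · intro x hx
      obtain ⟨h1, h2⟩ := R_scale hS hx (inv_pos.mpr hσ)
      refine ⟨_, h1, ?_⟩
      simp only [f]
      rw [h2, smul_smul, add_assoc, ← add_smul]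
      have : σ⁻¹ - 1 + (σ - 1) * σ⁻¹ = 0 := by field_simp; ring
      rw [this]; simp
  have hinj : Set.InjOn f (R S T) := by
    intro x hx x' hx' h
    have h1 := (R_scale hS hx hσ).2
    have h2 := (R_scale hS hx' hσ).2
    have h3 : σ • nv P x = σ • nv P x' := by
      rw [← h1, ← h2]; exact congrArg (nv P) h
    have h4 := smul_right_injective E hσ.ne' h3
    simp only [f, h4] at h
    exact add_right_cancel h
  have hder : ∀ x ∈ R S T, HasFDerivWithinAt f
      (ContinuousLinearMap.id ℝ E + (σ - 1) • (N T).starProjection) (R S T) x := by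
    intro x hx
    have h1 : HasFDerivAt (fun x => x + (σ - 1) • (N T).starProjection (x - o))
        (ContinuousLinearMap.id ℝ E + (σ - 1) • (N T).starProjection) x := by
      refine (hasFDerivAt_id x).add (HasFDerivAt.const_smul ?_ (σ - 1))
      exact (N T).starProjection.hasFDerivAt.comp x ((hasFDerivAt_id x).sub_const o)
    refine h1.hasFDerivWithinAt.congr (fun y hy => ?_) ?_
    · simp only [f]; rw [R_nv hS hy ho]
    · simp only [f]; rw [R_nv hS hx ho]
  have h := lintegral_image_eq_lintegral_abs_det_fderiv_mul volume (R_meas hS T) hder hinj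
    (fun x => g (σ⁻¹ • nv P x))
  rw [himg] at h
  rw [h, ← lintegral_const_mul' _ _ ENNReal.ofReal_ne_top]
  refine setLIntegral_congr_fun (R_meas hS T) fun x hx => ?_
  simp only [f]
  rw [det_scale, (R_scale hS hx hσ).2, smul_smul, inv_mul_cancel₀ hσ.ne', one_smul,
    abs_of_pos (by positivity)]

omit [FiniteDimensional ℝ E] in
lemma split_int {S : Finset E} (hS : S.Nonempty) (μ : Measure E) (g : Finset E → E → ℝ≥0∞) :
    ∫⁻ x, g (am S x) x ∂μ = ∑ T ∈ S.powerset, ∫⁻ x in R S T, g T x ∂μ := by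
  have h1 : (Set.univ : Set E) = ⋃ T ∈ S.powerset, R S T := by
    ext x
    simp only [Set.mem_univ, Set.mem_iUnion, true_iff]
    exact ⟨am S x, Finset.mem_powerset.mpr (am_subset S x), mem_R.mpr rfl⟩
  rw [← setLIntegral_univ, h1, lintegral_biUnion_finset]
  · refine Finset.sum_congr rfl fun T _ => setLIntegral_congr_fun (R_meas hS T) fun x hx => ?_
    simp only [mem_R.mp hx]
  · intro T _ T' _ h
    rw [Function.onFun, Set.disjoint_left]
    intro x hx hx'
    exact h ((mem_R.mp hx).symm.trans (mem_R.mp hx'))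
  · exact fun T _ => R_meas hS T

end Pool.Agent.CG
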