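import Pool.Agent.H.MP_3a8a48_gt.A

set_option autoImplicit false

namespace Pool.Agent.CG

open Finset Module MeasureTheory Filter Topology
open scoped RealInnerProductSpace ENNReal NNReal

lemma ftc_Ioi {f h : ℝ → ℝ} (a : ℝ) (hc : Continuous f) {Z : Set ℝ} (hZ : Z.Countable)
    (hd : ∀ s, a < s → s ∉ Z → HasDerivAt f (h s) s) (h0 : ∀ s, 0 ≤ h s)
    (hi : ∀ a b, IntervalIntegrable h volume a b) (hl : Tendsto f atTop (𝓝 0)) :
    ∫⁻ s in Set.Ioi a, ENNReal.ofReal (h s) = ENNReal.ofReal (-f a) := by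
  have h1 : ∀ᶠ b in atTop, f b - f a = ∫ s in a..b, h s := by
    filter_upwards [eventually_ge_atTop a] with b hb
    exact (integral_eq_of_hasDerivAt_off_countable_of_le f h hb hZ hc.continuousOn
      (fun s hs => hd s hs.1.1 hs.2) (hi a b)).symm
  have h2 : Tendsto (fun b => ∫ s in a..b, h s) atTop (𝓝 (0 - f a)) :=
    (hl.sub_const (f a)).congr' h1
  have h3 : IntegrableOn h (Set.Ioi a) := by
    refine integrableOn_Ioi_of_intervalIntegral_norm_tendsto (0 - f a) a (b := id) (l := atTop)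
      (fun b => (hi a b).1) tendsto_id ?_
    simpa [Real.norm_eq_abs, abs_of_nonneg (h0 _)] using h2
  have h4 := tendsto_nhds_unique (intervalIntegral_tendsto_integral_Ioi a h3 tendsto_id) h2
  rw [← ofReal_integral_eq_lintegral_ofReal h3 (Eventually.of_forall h0), h4, zero_sub]

lemma ftc_Iic {f h : ℝ → ℝ} (a : ℝ) (hc : Continuous f) {Z : Set ℝ} (hZ : Z.Countable)
    (hd : ∀ s, s < a → s ∉ Z → HasDerivAt f (h s) s) (h0 : ∀ s, 0 ≤ h s)
    (hi : ∀ a b, IntervalIntegrable h volume a b) (hl : Tendsto f atBot (𝓝 0)) :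
    ∫⁻ s in Set.Iic a, ENNReal.ofReal (h s) = ENNReal.ofReal (f a) := by
  have h1 : ∀ᶠ b in atBot, f a - f b = ∫ s in b..a, h s := by
    filter_upwards [eventually_le_atBot a] with b hb
    exact (integral_eq_of_hasDerivAt_off_countable_of_le f h hb hZ hc.continuousOn
      (fun s hs => hd s hs.1.2 hs.2) (hi b a)).symm
  have h2 : Tendsto (fun b => ∫ s in b..a, h s) atBot (𝓝 (f a - 0)) :=
    (hl.const_sub (f a)).congr' h1
  have h3 : IntegrableOn h (Set.Iic a) := by
    refine integrableOn_Iic_of_intervalIntegral_norm_tendsto (f a - 0) a (a := id) (l := atBot)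
      (fun b => (hi b a).1) tendsto_id ?_
    simpa [Real.norm_eq_abs, abs_of_nonneg (h0 _)] using h2
  have h4 := tendsto_nhds_unique (intervalIntegral_tendsto_integral_Iic a h3 tendsto_id) h2
  rw [← ofReal_integral_eq_lintegral_ofReal h3 (Eventually.of_forall h0), h4, sub_zero]

noncomputable def Psi (a : ℝ) : ℝ := √Real.pi / 2 - ∫ r in (0 : ℝ)..a, Real.exp (-r ^ 2)

lemma Psi_deriv (a : ℝ) : HasDerivAt Psi (-Real.exp (-a ^ 2)) a := by
  have hc : Continuous fun r : ℝ => Real.exp (-r ^ 2) := by fun_prop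
  exact ((hc.integral_hasStrictDerivAt 0 a).hasDerivAt).const_sub _

lemma Psi_cont : Continuous Psi := continuous_iff_continuousAt.mpr fun a => (Psi_deriv a).continuousAt

lemma Psi_zero : Psi 0 = √Real.pi / 2 := by simp [Psi]

lemma Psi_lim : Tendsto Psi atTop (𝓝 0) := by
  have h1 : IntegrableOn (fun r : ℝ => Real.exp (-r ^ 2)) (Set.Ioi 0) := by
    simpa using (integrable_exp_neg_mul_sq (b := 1) one_pos).integrableOn
  have h2 := intervalIntegral_tendsto_integral_Ioi 0 h1 tendsto_id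
  have h3 := integral_gaussian_Ioi 1
  simp only [neg_mul, one_mul, div_one] at h3
  rw [h3] at h2
  have := h2.const_sub (√Real.pi / 2)
  rw [sub_self] at this
  exact this

lemma Psi_nonneg (a : ℝ) : 0 ≤ Psi a := by
  have h : Antitone Psi := antitone_of_deriv_nonpos (fun a => (Psi_deriv a).differentiableAt)
    fun a => by rw [(Psi_deriv a).deriv]; have := Real.exp_pos (-a ^ 2); linarith
  exact h.le_of_tendsto Psi_lim a

variable {E : Type*} [NormedAddCommGroup E] [InnerProductSpace ℝ E]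

noncomputable def hh (t : ℝ) (e u : E) : ℝ :=
  t * Real.exp (-‖u‖ ^ 2) +
    (1 - t) * (2 * |⟪e, u⟫| * Psi |⟪e, u⟫| * Real.exp (-(‖u‖ ^ 2 - ⟪e, u⟫ ^ 2)))

lemma hh_cont (t : ℝ) (e : E) : Continuous (hh t e) := by
  have := Psi_cont
  unfold hh; fun_prop

lemma hh_ge {t : ℝ} (h1 : t ≤ 1) (e u : E) : t * Real.exp (-‖u‖ ^ 2) ≤ hh t e u := by
  have h2 := Psi_nonneg |⟪e, u⟫|
  have h3 : 0 ≤ 1 - t := by linarith
  have : 0 ≤ (1 - t) * (2 * |⟪e, u⟫| * Psi |⟪e, u⟫| * Real.exp (-(‖u‖ ^ 2 - ⟪e, u⟫ ^ 2))) := by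
    positivity
  unfold hh; linarith

lemma deriv_N (ε : ℝ) (hε : ε ^ 2 = 1) (e : E) {u : ℝ → E} {u' : E} {s k t : ℝ}
    (hu : HasDerivAt u u' s) (h1 : ⟪e, u'⟫ = k * t) (h2 : ⟪u s, u'⟫ = k * ⟪e, u s⟫)
    (h3 : ε * ⟪e, u s⟫ = |⟪e, u s⟫|) :
    HasDerivAt (fun s => -ε * Psi (ε * ⟪e, u s⟫) * Real.exp (-(‖u s‖ ^ 2 - ⟪e, u s⟫ ^ 2)))
      (k * hh t e (u s)) s := by
  have ha : HasDerivAt (fun s => ⟪e, u s⟫) (k * t) s := by
    have := (hasDerivAt_const s e).inner ℝ hu
    simpa [h1] using this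
  have hn : HasDerivAt (fun s => ‖u s‖ ^ 2) (2 * (k * ⟪e, u s⟫)) s := by
    rw [← h2]; exact hu.norm_sq
  have hP := ((Psi_deriv (ε * ⟪e, u s⟫)).comp s (ha.const_mul ε)).const_mul (-ε)
  have hE := (hn.sub (ha.pow 2)).neg.exp
  have h := hP.mul hE
  refine HasDerivAt.congr_deriv h ?_
  simp only [hh, Function.comp_apply, Pi.neg_apply, Pi.sub_apply, Pi.pow_apply]
  rw [← h3]
  have e1 : Real.exp (-‖u s‖ ^ 2) =
      Real.exp (-(ε * ⟪e, u s⟫) ^ 2) * Real.exp (-(‖u s‖ ^ 2 - ⟪e, u s⟫ ^ 2)) := by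
    rw [← Real.exp_add]; congr 1; rw [mul_pow, hε]; ring
  rw [e1]
  simp only [Nat.cast_ofNat, Nat.add_one_sub_one, pow_one]
  linear_combination ((k * t * Real.exp (-(ε * ⟪e, u s⟫) ^ 2) *
    Real.exp (-(‖u s‖ ^ 2 - ⟪e, u s⟫ ^ 2)))) * hε

lemma nv_line_bound {L : Set E} (h : Good L) (e z : E) (he : ‖e‖ = 1) :
    ∃ C : ℝ, ∀ s : ℝ, |⟪e, nv L (z + s • e)⟫ - s| ≤ C := by
  obtain ⟨C, hC⟩ := h.cpt.isBounded.exists_norm_le
  refine ⟨‖z‖ + C, fun s => ?_⟩
  have h1 : ⟪e, nv L (z + s • e)⟫ - s = ⟪e, z - pr L (z + s • e)⟫ := by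
    simp only [nv, inner_sub_right, inner_add_right, inner_smul_right, real_inner_self_eq_norm_sq,
      he]; ring
  rw [h1]
  refine (abs_real_inner_le_norm _ _).trans ?_
  rw [he, one_mul]
  exact (norm_sub_le _ _).trans (add_le_add_right (hC _ (pr_spec h _).1) _)

lemma nv_line_mono {L : Set E} (h : Good L) (e z : E) :
    Monotone fun s : ℝ => ⟪e, nv L (z + s • e)⟫ := by
  intro s s' hs
  rcases hs.eq_or_lt with rfl | hs
  · exact le_rfl
  have h1 := nv_mono h (z + s' • e) (z + s • e)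
  have h2 : z + s' • e - (z + s • e) = (s' - s) • e := by rw [sub_smul]; abel
  rw [h2, inner_smul_right, inner_sub_left, real_inner_comm e, real_inner_comm e] at h1
  have h3 := sq_nonneg ‖nv L (z + s' • e) - nv L (z + s • e)‖
  have h4 : 0 < s' - s := sub_pos.mpr hs
  by_contra h5
  push Not at h5
  nlinarith

lemma exists_zero {L : Set E} (h : Good L) (e z : E) (he : ‖e‖ = 1) :
    ∃ s₀ : ℝ, ⟪e, nv L (z + s₀ • e)⟫ = 0 := by
  obtain ⟨C, hC⟩ := nv_line_bound h e z he
  have hc : Continuous fun s : ℝ => ⟪e, nv L (z + s • e)⟫ := by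
    have := (nv_lip h).continuous; fun_prop
  have h1 := abs_le.mp (hC C)
  have h2 := abs_le.mp (hC (-C))
  exact intermediate_value_univ (-C) C hc ⟨by linarith, by linarith⟩

variable [FiniteDimensional ℝ E]

noncomputable def tt (T : Finset E) (e : E) : ℝ := ⟪e, (N T).starProjection e⟫

lemma tt_mem (T : Finset E) {e : E} (he : ‖e‖ = 1) : 0 ≤ tt T e ∧ tt T e ≤ 1 := by
  constructor
  · have := (N T).re_inner_starProjection_eq_normSq e
    rw [tt, real_inner_comm]
    simp only [RCLike.re_to_real] at this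
    rw [this]; positivity
  · refine (real_inner_le_norm _ _).trans ?_
    have := (N T).norm_starProjection_apply_le e
    rw [he] at this ⊢; linarith

lemma line_deriv {S : Finset E} (hS : S.Nonempty) (e z : E) :
    ∃ Z : Set ℝ, Z.Countable ∧ ∀ s ∉ Z, HasDerivAt
      (fun s : ℝ => nv (convexHull ℝ (S : Set E)) (z + s • e))
      ((N (am S (z + s • e))).starProjection e) s := by
  let J : Finset E → Set ℝ := fun T => {s | z + s • e ∈ R S T}
  refine ⟨⋃ T ∈ S.powerset, ({s | IsLeast (J T) s} ∪ {s | IsGreatest (J T) s}), ?_, ?_⟩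
  · refine Set.Countable.biUnion (Finset.countable_toSet _) fun T _ => Set.Countable.union ?_ ?_
    · exact Set.Subsingleton.countable fun a ha b hb => ha.unique hb
    · exact Set.Subsingleton.countable fun a ha b hb => ha.unique hb
  · intro s hs
    set T := am S (z + s • e) with hT
    have hsJ : s ∈ J T := mem_R.mpr rfl
    simp only [Set.mem_iUnion, not_exists, Set.mem_union, not_or, Set.mem_setOf_eq] at hs
    obtain ⟨h1, h2⟩ := hs T (Finset.mem_powerset.mpr (am_subset S _))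
    have h3 : ∃ a ∈ J T, a < s := by
      by_contra h; push Not at h; exact h1 ⟨hsJ, h⟩
    have h4 : ∃ b ∈ J T, s < b := by
      by_contra h; push Not at h; exact h2 ⟨hsJ, h⟩
    obtain ⟨a, ha, has⟩ := h3
    obtain ⟨b, hb, hsb⟩ := h4
    have hJ : Convex ℝ (J T) := by
      intro x hx y hy p q hp hq hpq
      have := R_convex hS T hx hy hp hq hpq
      show z + (p • x + q • y) • e ∈ R S T
      convert this using 1
      have hq' : q = 1 - p := by linarith
      simp only [smul_eq_mul, hq']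
      module
    obtain ⟨o, ho⟩ := am_nonempty hS (z + s • e)
    have h5 : HasDerivAt (fun s : ℝ => (N T).starProjection (z + s • e - o))
        ((N T).starProjection e) s := by
      have := (((hasDerivAt_id s).smul_const e).const_add z).sub_const o
      exact (N T).starProjection.hasFDerivAt.comp_hasDerivAt s (by simpa using this)
    refine h5.congr_of_eventuallyEq ?_
    filter_upwards [Ioo_mem_nhds has hsb] with r hr
    exact R_nv hS (hJ.ordConnected.out ha hb ⟨hr.1.le, hr.2.le⟩) ho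

variable [MeasurableSpace E] [BorelSpace E]

theorem line_int {S : Finset E} (hS : S.Nonempty) {e : E} (he : ‖e‖ = 1) (z : E) {σ : ℝ}
    (hσ : 0 < σ) {s₀ : ℝ} (h0 : ⟪e, nv (convexHull ℝ (S : Set E)) (z + s₀ • e)⟫ = 0) :
    ∫⁻ s : ℝ, ENNReal.ofReal (hh (tt (am S (z + s • e)) e) e
      (σ⁻¹ • nv (convexHull ℝ (S : Set E)) (z + s • e))) =
    ENNReal.ofReal (σ * √Real.pi *
      Real.exp (-‖σ⁻¹ • nv (convexHull ℝ (S : Set E)) (z + s₀ • e)‖ ^ 2)) := by
  classical
  set P := convexHull ℝ (S : Set E)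
  have hP : Good P := good_hull hS
  let u : ℝ → E := fun s => σ⁻¹ • nv P (z + s • e)
  let h : ℝ → ℝ := fun s => hh (tt (am S (z + s • e)) e) e (u s)
  have huc : Continuous u := by have := (nv_lip hP).continuous; fun_prop
  have hh0 : ∀ s, 0 ≤ h s := fun s =>
    le_trans (mul_nonneg (tt_mem _ he).1 (Real.exp_pos _).le) (hh_ge (tt_mem _ he).2 e _)
  have hhi : ∀ a b, IntervalIntegrable h volume a b := by
    intro a b
    have : h = ∑ T ∈ S.powerset, {s : ℝ | z + s • e ∈ R S T}.indicator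
        (fun s => hh (tt T e) e (u s)) := by
      funext s
      rw [Finset.sum_apply, Finset.sum_eq_single (am S (z + s • e))]
      · rw [Set.indicator_of_mem (show s ∈ {r : ℝ | z + r • e ∈ R S (am S (z + s • e))} from
          mem_R.mpr rfl)]
      · intro T _ hT
        exact Set.indicator_of_notMem (show s ∉ {r : ℝ | z + r • e ∈ R S T} from
          fun h => hT (mem_R.mp h).symm) _
      · intro h; exact absurd (Finset.mem_powerset.mpr (am_subset S _)) h
    rw [this]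
    refine IntervalIntegrable.sum _ fun T _ => ?_
    have hm : MeasurableSet {s : ℝ | z + s • e ∈ R S T} :=
      (R_meas hS T).preimage (by fun_prop)
    have hi := ((hh_cont (tt T e) e).comp huc).intervalIntegrable (μ := volume) a b
    exact ⟨hi.1.indicator hm, hi.2.indicator hm⟩
  obtain ⟨Z, hZ, hder⟩ := line_deriv hS e z
  let F : ℝ → ℝ → ℝ := fun ε s =>
    σ * (-ε * Psi (ε * ⟪e, u s⟫) * Real.exp (-(‖u s‖ ^ 2 - ⟪e, u s⟫ ^ 2)))
  have hFc : ∀ ε, Continuous (F ε) := fun ε => by have := Psi_cont; fun_prop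
  have hFd : ∀ ε : ℝ, ε ^ 2 = 1 → ∀ s ∉ Z, ε * ⟪e, u s⟫ = |⟪e, u s⟫| →
      HasDerivAt (F ε) (h s) s := by
    intro ε hε s hs h3
    obtain ⟨o, ho⟩ := am_nonempty hS (z + s • e)
    have h4 := R_nv hS (mem_R.mpr rfl) ho
    have := (deriv_N ε hε e (k := σ⁻¹) (t := tt (am S (z + s • e)) e)
      ((hder s hs).const_smul σ⁻¹) (by rw [inner_smul_right, tt]) (by
        rw [inner_smul_right, ← Submodule.inner_starProjection_left_eq_right, real_inner_comm]
        congr 2
        rw [Submodule.starProjection_eq_self_iff]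
        refine Submodule.smul_mem _ _ ?_
        show nv P (z + s • e) ∈ _
        rw [h4]; exact Submodule.starProjection_apply_mem _ _) h3).const_mul σ
    rwa [← mul_assoc, mul_inv_cancel₀ hσ.ne', one_mul] at this
  have hui : ∀ s, ⟪e, u s⟫ = σ⁻¹ * ⟪e, nv P (z + s • e)⟫ := fun s => inner_smul_right _ _ _
  have hmono := nv_line_mono hP e z
  obtain ⟨C, hC⟩ := nv_line_bound hP e z he
  have hexp : ∀ s, Real.exp (-(‖u s‖ ^ 2 - ⟪e, u s⟫ ^ 2)) ≤ 1 := by
    intro s
    rw [Real.exp_le_one_iff]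
    have h1 := abs_real_inner_le_norm e (u s)
    rw [he, one_mul] at h1
    have := sq_le_sq' (abs_le.mp h1).1 (abs_le.mp h1).2
    linarith
  have hlim : ∀ (ε : ℝ) (l : Filter ℝ), Tendsto (fun s => ε * ⟪e, u s⟫) l atTop →
      Tendsto (F ε) l (𝓝 0) := by
    intro ε l hl
    have h1 := ((Psi_lim.comp hl).const_mul (σ * |ε|))
    rw [mul_zero] at h1
    refine squeeze_zero_norm (fun s => ?_) h1
    simp only [F, Real.norm_eq_abs, abs_mul, abs_neg, abs_of_pos hσ, abs_of_nonneg (Psi_nonneg _),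
      abs_of_pos (Real.exp_pos _), Function.comp_apply]
    have h2 := Psi_nonneg (ε * ⟪e, u s⟫)
    have h3 : 0 ≤ σ * |ε| * Psi (ε * ⟪e, u s⟫) := by positivity
    nlinarith [hexp s]
  have hA := ftc_Ioi s₀ (hFc 1) hZ (fun s hs hsZ => hFd 1 (by norm_num) s hsZ (by
      have h1 : 0 ≤ ⟪e, nv P (z + s • e)⟫ := h0 ▸ hmono hs.le
      rw [one_mul, abs_of_nonneg (by rw [hui]; positivity)])) hh0 hhi (hlim 1 atTop (by
      simp only [one_mul, hui]
      refine Tendsto.const_mul_atTop (inv_pos.mpr hσ) ?_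
      refine tendsto_atTop_mono (fun s => ?_) (tendsto_atTop_add_const_right _ (-C) tendsto_id)
      have := (abs_le.mp (hC s)).1
      simp only [id]; linarith))
  have hB := ftc_Iic s₀ (hFc (-1)) hZ (fun s hs hsZ => hFd (-1) (by norm_num) s hsZ (by
      have h1 : ⟪e, nv P (z + s • e)⟫ ≤ 0 := h0 ▸ hmono hs.le
      rw [neg_one_mul, abs_of_nonpos (by
        rw [hui]; exact mul_nonpos_of_nonneg_of_nonpos (inv_pos.mpr hσ).le h1)])) hh0 hhi
      (hlim (-1) atBot (by
      simp only [neg_one_mul, hui, ← mul_neg]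
      refine Tendsto.const_mul_atTop (inv_pos.mpr hσ) ?_
      refine tendsto_atTop_mono (fun s => ?_)
        (tendsto_atTop_add_const_right _ (-C) tendsto_neg_atBot_atTop)
      have := (abs_le.mp (hC s)).2
      linarith))
  have hu0 : ⟪e, u s₀⟫ = 0 := by rw [hui, h0, mul_zero]
  rw [← lintegral_add_compl _ (measurableSet_Iic (a := s₀)), Set.compl_Iic]
  show (∫⁻ s in Set.Iic s₀, ENNReal.ofReal (h s)) + ∫⁻ s in Set.Ioi s₀, ENNReal.ofReal (h s) = _
  rw [hA, hB, ← ENNReal.ofReal_add]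
  · congr 1
    simp only [F, hu0, mul_zero, Psi_zero, u]
    ring_nf
  · simp only [F, hu0, mul_zero, Psi_zero]; norm_num; positivity
  · simp only [F, hu0, mul_zero, Psi_zero]; norm_num; positivity

end Pool.Agent.CG
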