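import Pool.Agent.H.MP_3a8a48_gt.B

set_option autoImplicit false

namespace Pool.Agent.CG

open Finset Module MeasureTheory Filter Topology
open scoped RealInnerProductSpace ENNReal NNReal

section gen

variable {E : Type*} [NormedAddCommGroup E] [InnerProductSpace ℝ E]

def PP (e x : E) : E := x - ⟪x, e⟫ • e

lemma PP_cont (e : E) : Continuous (PP e) := by unfold PP; fun_prop

lemma good_PP {L : Set E} (h : Good L) (e : E) : Good (PP e '' L) := by
  refine ⟨h.cpt.image (PP_cont e), ?_, h.ne.image _⟩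
  rintro _ ⟨x, hx, rfl⟩ _ ⟨y, hy, rfl⟩ a b ha hb hab
  refine ⟨a • x + b • y, h.cvx hx hy ha hb hab, ?_⟩
  simp only [PP, inner_add_left, real_inner_smul_left]
  module

lemma PP_dist {e : E} (he : ‖e‖ = 1) (x y : E) : dist (PP e x) (PP e y) ≤ dist x y := by
  rw [dist_eq_norm, dist_eq_norm]
  have h1 : PP e x - PP e y = (x - y) - ⟪x - y, e⟫ • e := by
    simp only [PP, inner_sub_left]; module
  rw [h1]
  refine abs_le_abs (by
    have := norm_sub_sq_real (x - y) (⟪x - y, e⟫ • e)
    rw [inner_smul_right, norm_smul, he, mul_one, Real.norm_eq_abs, sq_abs] at this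
    apply le_of_sq_le_sq _ (norm_nonneg _) |> fun h => h
    nlinarith [sq_nonneg ⟪x - y, e⟫]) (by linarith [norm_nonneg (x - y - ⟪x - y, e⟫ • e), norm_nonneg (x - y)]) |>.trans' (le_abs_self _) |>.trans (abs_of_nonneg (norm_nonneg _)).le

lemma infDist_PP {L : Set E} (h : Good L) {e z : E} (he : ‖e‖ = 1) (hz : ⟪e, z⟫ = 0) {s₀ : ℝ}
    (h0 : ⟪e, nv L (z + s₀ • e)⟫ = 0) (s : ℝ) :
    Metric.infDist (z + s • e) (PP e '' L) ^ 2 = s ^ 2 + ‖nv L (z + s₀ • e)‖ ^ 2 := by
  have hee : ⟪e, e⟫ = 1 := by rw [real_inner_self_eq_norm_sq, he]; norm_num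
  set p := pr L (z + s₀ • e) with hp
  set y := nv L (z + s₀ • e) with hy
  have hyp : y = z + s₀ • e - p := rfl
  have hpe : ⟪p, e⟫ = s₀ := by
    rw [hyp, inner_sub_right, inner_add_right, inner_smul_right, hz, hee] at h0
    rw [real_inner_comm]; linarith
  have h1 : z + s • e - PP e p = s • e + y := by
    rw [hyp, PP, hpe]; module
  have h2 : pr (PP e '' L) (z + s • e) = PP e p := by
    refine pr_eq (good_PP h e) ⟨p, (pr_spec h _).1, rfl⟩ ?_
    rintro _ ⟨w, hw, rfl⟩
    have h3 := (pr_spec h (z + s₀ • e)).2 w hw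
    rw [← hp, ← hyp] at h3
    have h4 : PP e w - PP e p = (w - p) - ⟪w - p, e⟫ • e := by
      simp only [PP, inner_sub_left]; module
    rw [h1, h4, inner_add_left, inner_sub_right (s • e), inner_sub_right y, real_inner_smul_left,
      real_inner_smul_left, inner_smul_right, inner_smul_right, hee, real_inner_comm e y, h0,
      real_inner_comm e (w - p)]
    linarith
  rw [infDist_eq (good_PP h e), nv, h2, h1, norm_add_sq_real, real_inner_smul_left, h0, norm_smul,
    he]
  simp

variable [FiniteDimensional ℝ E] [MeasurableSpace E] [BorelSpace E]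

noncomputable def W (σ : ℝ) (L : Set E) : ℝ≥0∞ :=
  ∫⁻ x, ENNReal.ofReal (Real.exp (-(Metric.infDist x L / σ) ^ 2))

omit [InnerProductSpace ℝ E] [FiniteDimensional ℝ E] in
lemma W_meas (σ : ℝ) (L : Set E) :
    Measurable fun x => ENNReal.ofReal (Real.exp (-(Metric.infDist x L / σ) ^ 2)) := by
  have := Metric.continuous_infDist_pt L
  exact ENNReal.measurable_ofReal.comp (Continuous.measurable (by fun_prop))

omit [FiniteDimensional ℝ E] in
lemma meas_am {S : Finset E} (hS : S.Nonempty) (g : Finset E → E → ℝ≥0∞)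
    (hg : ∀ T, Measurable (g T)) : Measurable fun x => g (am S x) x := by
  classical
  have : (fun x => g (am S x) x) = fun x => ∑ T ∈ S.powerset, (R S T).indicator (g T) x := by
    funext x
    rw [Finset.sum_eq_single (am S x)]
    · rw [Set.indicator_of_mem (mem_R.mpr rfl)]
    · intro T _ hT
      exact Set.indicator_of_notMem (fun h => hT (mem_R.mp h).symm) _
    · intro h; exact absurd (Finset.mem_powerset.mpr (am_subset S _)) h
  rw [this]
  exact Finset.measurable_sum _ fun T _ => (hg T).indicator (R_meas hS T)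

lemma W_poly {S : Finset E} (hS : S.Nonempty) {σ : ℝ} (hσ : 0 < σ) :
    W σ (convexHull ℝ (S : Set E)) = ∑ T ∈ S.powerset, ENNReal.ofReal (σ ^ finrank ℝ (N T)) *
      ∫⁻ x in R S T, ENNReal.ofReal (Real.exp (-‖nv (convexHull ℝ (S : Set E)) x‖ ^ 2)) := by
  rw [W, split_int hS volume (fun _ x => ENNReal.ofReal
    (Real.exp (-(Metric.infDist x (convexHull ℝ (S : Set E)) / σ) ^ 2)))]
  refine Finset.sum_congr rfl fun T _ => ?_
  rw [← scale_int hS T hσ (fun u => ENNReal.ofReal (Real.exp (-‖u‖ ^ 2)))]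
  congr 1
  funext x
  rw [infDist_eq (good_hull hS), norm_smul, Real.norm_eq_abs, abs_of_pos (inv_pos.mpr hσ),
    div_eq_inv_mul]

lemma W_mono {L K : Set E} (hL : L.Nonempty) (h : L ⊆ K) {σ : ℝ} (hσ : 0 < σ) : W σ L ≤ W σ K := by
  refine lintegral_mono fun x => ENNReal.ofReal_le_ofReal (Real.exp_le_exp.mpr (neg_le_neg ?_))
  have := Metric.infDist_le_infDist_of_subset h hL (x := x)
  have := Metric.infDist_nonneg (x := x) (s := K)
  gcongr

lemma W_tendsto {K : Set E} {L : ℕ → Set E} (hL : ∀ k, (L k).Nonempty) (h : ∀ k, L k ⊆ K)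
    (hd : ∀ k, ∀ z ∈ K, ∃ w ∈ L k, dist z w ≤ 1 / ((k : ℝ) + 1)) {σ : ℝ} (hσ : 0 < σ)
    (hK : W σ K ≠ ⊤) : Tendsto (fun k => W σ (L k)) atTop (𝓝 (W σ K)) := by
  refine tendsto_lintegral_of_dominated_convergence _ (fun k => W_meas σ (L k))
    (fun k => Eventually.of_forall fun x => ?_) hK (Eventually.of_forall fun x => ?_)
  · refine ENNReal.ofReal_le_ofReal (Real.exp_le_exp.mpr (neg_le_neg ?_))
    have := Metric.infDist_le_infDist_of_subset (h k) (hL k) (x := x)
    have := Metric.infDist_nonneg (x := x) (s := K)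
    gcongr
  · have h1 : Tendsto (fun k => Metric.infDist x (L k)) atTop (𝓝 (Metric.infDist x K)) := by
      have h2 : Tendsto (fun k : ℕ => Metric.infDist x K + 1 / ((k : ℝ) + 1)) atTop
          (𝓝 (Metric.infDist x K + 0)) :=
        tendsto_const_nhds.add tendsto_one_div_add_atTop_nhds_zero_nat
      rw [add_zero] at h2
      refine tendsto_of_tendsto_of_tendsto_of_le_of_le tendsto_const_nhds h2
        (fun k => Metric.infDist_le_infDist_of_subset (h k) (hL k)) fun k => ?_
      have hKn : K.Nonempty := (hL 0).mono (h 0)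
      show Metric.infDist x (L k) ≤ _
      rw [← sub_le_iff_le_add, Metric.le_infDist hKn]
      intro z hz
      obtain ⟨w, hw, hzw⟩ := hd k z hz
      have := Metric.infDist_le_dist_of_mem (x := x) hw
      have := dist_triangle x z w
      linarith
    have hc : Continuous fun d : ℝ => ENNReal.ofReal (Real.exp (-(d / σ) ^ 2)) :=
      ENNReal.continuous_ofReal.comp (by fun_prop)
    exact (hc.tendsto _).comp h1

lemma layer {L : Set E} (hL : L.Nonempty) (hc : IsCompact L) (m : ℕ) (a : ℕ → ℝ)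
    (ha : ∀ t : ℝ, 0 ≤ t → (volume (Metric.cthickening t L)).toReal =
      ∑ c ∈ Finset.range (m + 1), a c * t ^ c) {σ : ℝ} (hσ : 0 < σ) :
    W σ L ≠ ⊤ ∧ (W σ L).toReal =
      ∑ c ∈ Finset.range (m + 1), (a c * Real.Gamma (((c : ℝ) + 2) / 2)) * σ ^ c := by
  let h : ℝ → ℝ := fun t => 2 * |t| / σ ^ 2 * Real.exp (-(t / σ) ^ 2)
  have hh0 : ∀ t, 0 ≤ h t := fun t => by positivity
  have hhc : Continuous h := by fun_prop
  have h1 : ∀ d : ℝ, 0 ≤ d → ENNReal.ofReal (Real.exp (-(d / σ) ^ 2)) =
      ∫⁻ t, (Set.Ici d).indicator (fun t => ENNReal.ofReal (h t)) t := by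
    intro d hd
    rw [lintegral_indicator measurableSet_Ici, ← setLIntegral_congr Ioi_ae_eq_Ici,
      ftc_Ioi (f := fun t => -Real.exp (-(t / σ) ^ 2)) d (by fun_prop) Set.countable_empty
        (fun s hs _ => ?_) hh0 (fun a b => hhc.intervalIntegrable a b) ?_, neg_neg]
    · have h2 : Tendsto (fun t : ℝ => (t / σ) ^ 2) atTop atTop :=
        (tendsto_pow_atTop two_ne_zero).comp (tendsto_id.atTop_div_const hσ)
      simpa using (Real.tendsto_exp_neg_atTop_nhds_zero.comp h2).neg
    · have := (((hasDerivAt_id s).div_const σ).pow 2).neg.exp.neg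
      refine HasDerivAt.congr_deriv this ?_
      simp only [h, abs_of_pos (lt_of_le_of_lt hd hs), id, Pi.neg_apply, Pi.pow_apply]
      simp only [Nat.cast_ofNat, Nat.add_one_sub_one, pow_one]
      field_simp
  have h2 : W σ L = ∫⁻ t in Set.Ioi 0, ENNReal.ofReal (h t * ∑ c ∈ Finset.range (m + 1), a c * t ^ c) := by
    rw [W]
    simp only [h1 _ Metric.infDist_nonneg]
    rw [lintegral_lintegral_swap]
    · rw [setLIntegral_congr Ioi_ae_eq_Ici, ← lintegral_indicator measurableSet_Ici]
      congr 1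
      funext t
      have e1 : (fun x => (Set.Ici (Metric.infDist x L)).indicator (fun t => ENNReal.ofReal (h t)) t)
          = {x | Metric.infDist x L ≤ t}.indicator (fun _ => ENNReal.ofReal (h t)) := by
        funext x; simp [Set.indicator]
      rw [e1, lintegral_indicator_const
        (isClosed_le (Metric.continuous_infDist_pt L) continuous_const).measurableSet]
      by_cases ht : 0 ≤ t
      · have e2 : {x | Metric.infDist x L ≤ t} = Metric.cthickening t L := by
          ext x
          rw [Metric.mem_cthickening_iff, Set.mem_setOf_eq, Metric.infDist,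
            ENNReal.le_ofReal_iff_toReal_le (Metric.infEDist_ne_top hL) ht]
        rw [Set.indicator_of_mem (show t ∈ Set.Ici (0 : ℝ) from ht), e2, ← ha t ht,
          ENNReal.ofReal_mul (hh0 t), ENNReal.ofReal_toReal (hc.cthickening.measure_lt_top.ne)]
      · have e2 : {x | Metric.infDist x L ≤ t} = ∅ := by
          ext x
          have := Metric.infDist_nonneg (x := x) (s := L)
          simp only [Set.mem_setOf_eq, Set.mem_empty_iff_false, iff_false]
          linarith [not_le.mp ht]
        rw [Set.indicator_of_notMem (show t ∉ Set.Ici (0 : ℝ) from ht), e2]; simp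
    · have e1 : Function.uncurry (fun (x : E) (t : ℝ) =>
          (Set.Ici (Metric.infDist x L)).indicator (fun t => ENNReal.ofReal (h t)) t) =
          {p : E × ℝ | Metric.infDist p.1 L ≤ p.2}.indicator (fun p => ENNReal.ofReal (h p.2)) := by
        funext p; simp [Set.indicator, Function.uncurry]
      rw [e1]
      refine Measurable.aemeasurable (Measurable.indicator
        (ENNReal.measurable_ofReal.comp (hhc.measurable.comp measurable_snd)) ?_)
      exact (isClosed_le ((Metric.continuous_infDist_pt L).comp continuous_fst)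
        continuous_snd).measurableSet
  have hb : 0 < (σ ^ 2)⁻¹ := by positivity
  have h3 : ∀ c : ℕ, Set.EqOn (fun t : ℝ => h t * (a c * t ^ c))
      (fun t => (2 / σ ^ 2 * a c) * (t ^ ((c : ℝ) + 1) * Real.exp (-(σ ^ 2)⁻¹ * t ^ 2)))
      (Set.Ioi 0) := by
    intro c t ht
    have ht' : 0 < t := ht
    simp only [h, abs_of_pos ht']
    rw [Real.rpow_add_one ht'.ne', Real.rpow_natCast]
    have : -(t / σ) ^ 2 = -(σ ^ 2)⁻¹ * t ^ 2 := by field_simp
    rw [this]; ring
  have h4 : ∀ c : ℕ, IntegrableOn (fun t : ℝ => h t * (a c * t ^ c)) (Set.Ioi 0) := by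
    intro c
    refine IntegrableOn.congr_fun ?_ (h3 c).symm measurableSet_Ioi
    exact (integrableOn_rpow_mul_exp_neg_mul_sq hb (by
      have : (0 : ℝ) ≤ c := Nat.cast_nonneg c
      linarith)).const_mul _
  have h5 : ∀ c : ℕ, ∫ t in Set.Ioi (0 : ℝ), h t * (a c * t ^ c) =
      (a c * Real.Gamma (((c : ℝ) + 2) / 2)) * σ ^ c := by
    intro c
    rw [setIntegral_congr_fun measurableSet_Ioi (h3 c), integral_const_mul]
    have := integral_rpow_mul_exp_neg_mul_rpow (p := 2) (q := (c : ℝ) + 1) (b := (σ ^ 2)⁻¹) two_pos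
      (by have : (0 : ℝ) ≤ c := Nat.cast_nonneg c
          linarith) hb
    simp only [Real.rpow_two] at this
    rw [this]
    have e1 : (σ ^ 2)⁻¹ ^ (-((c : ℝ) + 1 + 1) / 2) = σ ^ (c + 2) := by
      rw [← Real.rpow_two, ← Real.rpow_neg hσ.le, ← Real.rpow_mul hσ.le, ← Real.rpow_natCast]
      congr 1; push_cast; ring
    rw [e1]
    have e2 : (c : ℝ) + 1 + 1 = c + 2 := by ring
    rw [e2]
    field_simp
    ring
  have h6 : IntegrableOn (fun t => h t * ∑ c ∈ Finset.range (m + 1), a c * t ^ c) (Set.Ioi 0) := by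
    simp only [Finset.mul_sum]
    exact integrable_finset_sum _ fun c _ => h4 c
  have h7 : 0 ≤ᵐ[volume.restrict (Set.Ioi (0 : ℝ))]
      fun t => h t * ∑ c ∈ Finset.range (m + 1), a c * t ^ c := by
    filter_upwards [ae_restrict_mem measurableSet_Ioi] with t ht
    rw [← ha t (le_of_lt ht)]
    exact mul_nonneg (hh0 t) ENNReal.toReal_nonneg
  rw [h2, ← ofReal_integral_eq_lintegral_ofReal h6 h7]
  refine ⟨ENNReal.ofReal_ne_top, ?_⟩
  rw [ENNReal.toReal_ofReal (integral_nonneg_of_ae h7)]
  simp only [Finset.mul_sum]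
  rw [integral_finset_sum _ fun c _ => h4 c]
  exact Finset.sum_congr rfl fun c _ => h5 c

end gen

lemma coeff_tendsto (m : ℕ) (u : ℕ → ℕ → ℝ) (v : ℕ → ℝ)
    (h : ∀ σ : ℝ, 0 < σ → Tendsto (fun k => ∑ c ∈ Finset.range (m + 1), u k c * σ ^ c) atTop
      (𝓝 (∑ c ∈ Finset.range (m + 1), v c * σ ^ c))) (c : ℕ) (hc : c ≤ m) :
    Tendsto (fun k => u k c) atTop (𝓝 (v c)) := by
  classical
  let x : Fin (m + 1) → ℝ := fun j => (j : ℝ) + 1
  have hx : Function.Injective x := by
    intro a b hab
    simp only [x, add_left_inj, Nat.cast_inj] at hab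
    exact Fin.ext hab
  have hdet : IsUnit (Matrix.vandermonde x).det :=
    (Matrix.det_vandermonde_ne_zero_iff.mpr hx).isUnit
  have key : ∀ w : ℕ → ℝ, (Matrix.vandermonde x)⁻¹.mulVec
      (fun j => ∑ c ∈ Finset.range (m + 1), w c * x j ^ c) = fun c : Fin (m + 1) => w c := by
    intro w
    have : (fun j => ∑ c ∈ Finset.range (m + 1), w c * x j ^ c) =
        (Matrix.vandermonde x).mulVec fun c : Fin (m + 1) => w c := by
      funext j
      rw [Finset.sum_range]
      simp [Matrix.mulVec, dotProduct, Matrix.vandermonde_apply, mul_comm]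
    rw [this, Matrix.mulVec_mulVec, Matrix.nonsing_inv_mul _ hdet, Matrix.one_mulVec]
  have h1 : ∀ w : ℕ → ℝ, w c = ∑ j, (Matrix.vandermonde x)⁻¹ ⟨c, by omega⟩ j *
      ∑ c ∈ Finset.range (m + 1), w c * x j ^ c := fun w =>
    (congrFun (key w) ⟨c, by omega⟩).symm
  rw [h1 v]
  refine Tendsto.congr (fun k => (h1 (u k)).symm) ?_
  exact tendsto_finset_sum _ fun j _ => (h (x j) (by positivity)).const_mul _

end Pool.Agent.CG
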