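import Pool.Agent.H.MP_3a8a48_gt.C

set_option autoImplicit false

namespace Pool.Agent.CG

open Finset Module MeasureTheory Filter Topology
open scoped RealInnerProductSpace ENNReal NNReal

variable {r : ℕ}

abbrev EE (r : ℕ) := EuclideanSpace ℝ (Fin (r + 1))

noncomputable def base (i : Fin (r + 1)) (x : Fin r → ℝ) : EE r :=
  WithLp.toLp 2 (i.insertNth (0 : ℝ) x)

lemma fubini (i : Fin (r + 1)) (g : EE r → ℝ≥0∞) (hg : Measurable g) :
    ∫⁻ x, g x = ∫⁻ x' : Fin r → ℝ, ∫⁻ s : ℝ, g (base i x' + s • EuclideanSpace.single i (1 : ℝ)) := by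
  have h1 := (PiLp.volume_preserving_toLp (Fin (r + 1))).comp
    ((volume_preserving_piFinSuccAbove (fun _ : Fin (r + 1) => ℝ) i).symm _)
  rw [← h1.lintegral_comp hg, Measure.volume_eq_prod]
  refine (lintegral_prod_symm _ (hg.comp h1.measurable).aemeasurable).trans ?_
  refine lintegral_congr fun x' => lintegral_congr fun s => congrArg g ?_
  ext k
  simp only [Function.comp_apply, MeasurableEquiv.piFinSuccAbove_symm_apply, base,
    Fin.insertNthEquiv_apply, PiLp.add_apply, PiLp.smul_apply, smul_eq_mul]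
  induction k using Fin.succAboveCases i with
  | x => simp
  | p k => simp [Fin.succAbove_ne]

lemma W_PP {S : Finset (EE r)} (hS : S.Nonempty) (i : Fin (r + 1)) {σ : ℝ} (hσ : 0 < σ) :
    W σ (PP (EuclideanSpace.single i (1 : ℝ)) '' convexHull ℝ (S : Set (EE r))) =
    ∑ T ∈ S.powerset, ENNReal.ofReal (σ ^ finrank ℝ (N T)) *
      ∫⁻ x in R S T, ENNReal.ofReal (hh (tt T (EuclideanSpace.single i (1 : ℝ)))
        (EuclideanSpace.single i (1 : ℝ)) (nv (convexHull ℝ (S : Set (EE r))) x)) := by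
  set e : EE r := EuclideanSpace.single i (1 : ℝ) with he
  have hen : ‖e‖ = 1 := by simp [he]
  set P := convexHull ℝ (S : Set (EE r))
  have hP : Good P := good_hull hS
  have h1 : W σ (PP e '' P) = ∫⁻ x, ENNReal.ofReal (hh (tt (am S x) e) e (σ⁻¹ • nv P x)) := by
    rw [W, fubini i _ (W_meas σ _), fubini i _ (meas_am hS
      (fun T x => ENNReal.ofReal (hh (tt T e) e (σ⁻¹ • nv P x))) fun T =>
      ENNReal.measurable_ofReal.comp ((hh_cont _ _).comp
        ((nv_lip hP).continuous.const_smul σ⁻¹)).measurable)]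
    congr 1
    funext x'
    obtain ⟨s₀, h0⟩ := exists_zero hP e (base i x') hen
    rw [← he, line_int hS hen _ hσ h0]
    have hz : ⟪e, base i x'⟫ = 0 := by simp [he, EuclideanSpace.inner_single_left, base]
    have h2 : ∀ s : ℝ, Real.exp (-(Metric.infDist (base i x' + s • e) (PP e '' P) / σ) ^ 2) =
        Real.exp (-‖σ⁻¹ • nv P (base i x' + s₀ • e)‖ ^ 2) * Real.exp (-(σ ^ 2)⁻¹ * s ^ 2) := by
      intro s
      rw [div_pow, infDist_PP hP hen hz h0, ← Real.exp_add, norm_smul, Real.norm_eq_abs,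
        abs_of_pos (inv_pos.mpr hσ)]
      congr 1
      field_simp
      ring
    simp only [h2]
    have hb : 0 < (σ ^ 2)⁻¹ := by positivity
    rw [← ofReal_integral_eq_lintegral_ofReal ((integrable_exp_neg_mul_sq hb).const_mul _)
      (Eventually.of_forall fun s => by positivity), integral_const_mul, integral_gaussian]
    congr 1
    rw [div_inv_eq_mul, Real.sqrt_mul Real.pi_pos.le, Real.sqrt_sq hσ.le]
    ring
  rw [h1, split_int hS volume (fun T x => ENNReal.ofReal (hh (tt T e) e (σ⁻¹ • nv P x)))]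
  exact Finset.sum_congr rfl fun T _ =>
    scale_int hS T hσ (fun u => ENNReal.ofReal (hh (tt T e) e u))

lemma real_coef {ι : Type*} (A : Finset ι) (c : ι → ℕ) (m : ℕ) (hc : ∀ T, c T ≤ m) (I : ι → ℝ≥0∞)
    (w : ℝ → ℝ≥0∞) (hw : ∀ σ, 0 < σ → w σ = ∑ T ∈ A, ENNReal.ofReal (σ ^ c T) * I T)
    (h1 : w 1 ≠ ⊤) : (∀ T ∈ A, I T ≠ ⊤) ∧ ∀ σ, 0 < σ → (w σ).toReal =
      ∑ k ∈ Finset.range (m + 1), (∑ T ∈ A.filter (fun T => c T = k), (I T).toReal) * σ ^ k := by
  have h2 : ∀ T ∈ A, I T ≠ ⊤ := by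
    rw [hw 1 one_pos] at h1
    simpa using h1
  refine ⟨h2, fun σ hσ => ?_⟩
  rw [hw σ hσ, ENNReal.toReal_sum fun T hT => ENNReal.mul_ne_top ENNReal.ofReal_ne_top (h2 T hT),
    ← Finset.sum_fiberwise_of_maps_to (g := c) (t := Finset.range (m + 1))
      fun T _ => Finset.mem_range.mpr (Nat.lt_succ_of_le (hc T))]
  refine Finset.sum_congr rfl fun k _ => ?_
  rw [Finset.sum_mul]
  refine Finset.sum_congr rfl fun T hT => ?_
  rw [ENNReal.toReal_mul, ENNReal.toReal_ofReal (by positivity), (Finset.mem_filter.mp hT).2,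
    mul_comm]

theorem poly_coef {S : Finset (EE r)} (hS : S.Nonempty)
    (h1 : W 1 (convexHull ℝ (S : Set (EE r))) ≠ ⊤)
    (h2 : ∀ i, W 1 (PP (EuclideanSpace.single i (1 : ℝ)) '' convexHull ℝ (S : Set (EE r))) ≠ ⊤) :
    ∃ (ω : ℕ → ℝ) (β : Fin (r + 1) → ℕ → ℝ),
      (∀ σ, 0 < σ → (W σ (convexHull ℝ (S : Set (EE r)))).toReal =
        ∑ k ∈ Finset.range (r + 1 + 1), ω k * σ ^ k) ∧
      (∀ i σ, 0 < σ → (W σ (PP (EuclideanSpace.single i (1 : ℝ)) ''
        convexHull ℝ (S : Set (EE r)))).toReal = ∑ k ∈ Finset.range (r + 1 + 1), β i k * σ ^ k) ∧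
      ∀ k : ℕ, (k : ℝ) * ω k ≤ ∑ i, β i k := by
  have hc : ∀ T : Finset (EE r), finrank ℝ (N T) ≤ r + 1 := fun T =>
    (Submodule.finrank_le _).trans (by simp)
  obtain ⟨hA, hA'⟩ := real_coef S.powerset _ (r + 1) hc _ _ (fun σ hσ => W_poly hS hσ) h1
  have hB := fun i => real_coef S.powerset _ (r + 1) hc _ _ (fun σ hσ => W_PP hS i hσ) (h2 i)
  refine ⟨_, _, hA', fun i => (hB i).2, fun k => ?_⟩
  rw [Finset.sum_comm, Finset.mul_sum]
  refine Finset.sum_le_sum fun T hT => ?_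
  obtain ⟨hT1, hT2⟩ := Finset.mem_filter.mp hT
  rw [← hT2, ← trace_proj (EuclideanSpace.basisFun (Fin (r + 1)) ℝ), Finset.sum_mul]
  refine Finset.sum_le_sum fun i _ => ?_
  have hen : ‖(EuclideanSpace.single i (1 : ℝ) : EE r)‖ = 1 := by simp
  have h3 := tt_mem T hen
  rw [EuclideanSpace.basisFun_apply]
  change tt T (EuclideanSpace.single i (1 : ℝ)) * _ ≤ _
  rw [← ENNReal.toReal_ofReal h3.1, ← ENNReal.toReal_mul, ENNReal.toReal_ofReal h3.1]
  refine ENNReal.toReal_mono ((hB i).1 T hT1) ?_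
  rw [← lintegral_const_mul' _ _ ENNReal.ofReal_ne_top]
  refine lintegral_mono fun x => ?_
  rw [← ENNReal.ofReal_mul h3.1]
  exact ENNReal.ofReal_le_ofReal (hh_ge h3.2 _ _)

theorem main (K : Set (EE r)) (hK : Good K) (a : ℕ → ℝ) (b : Fin (r + 1) → ℕ → ℝ)
    (ha : ∀ t : ℝ, 0 ≤ t → (volume (Metric.cthickening t K)).toReal =
      ∑ c ∈ Finset.range (r + 1 + 1), a c * t ^ c)
    (hb : ∀ i, ∀ t : ℝ, 0 ≤ t → (volume (Metric.cthickening t
      (PP (EuclideanSpace.single i (1 : ℝ)) '' K))).toReal =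
      ∑ c ∈ Finset.range (r + 1 + 1), b i c * t ^ c) (c : ℕ) (hc : c ≤ r + 1) :
    (c : ℝ) * a c ≤ ∑ i, b i c := by
  classical
  have hS : ∀ k : ℕ, ∃ S : Finset (EE r), S.Nonempty ∧ (S : Set (EE r)) ⊆ K ∧
      ∀ z ∈ K, ∃ w ∈ S, dist z w ≤ 1 / ((k : ℝ) + 1) := by
    intro k
    obtain ⟨t, ht1, ht2, ht3⟩ := finite_cover_balls_of_compact hK.cpt
      (e := 1 / ((k : ℝ) + 1)) (by positivity)
    have h4 : ∀ z ∈ K, ∃ w ∈ ht2.toFinset, dist z w ≤ 1 / ((k : ℝ) + 1) := by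
      intro z hz
      obtain ⟨w, hw, hzw⟩ := Set.mem_iUnion₂.mp (ht3 hz)
      exact ⟨w, by simpa using hw, (Metric.mem_ball.mp hzw).le⟩
    obtain ⟨z, hz⟩ := hK.ne
    obtain ⟨w, hw, -⟩ := h4 z hz
    exact ⟨ht2.toFinset, ⟨w, hw⟩, by simpa using ht1, h4⟩
  choose S hS1 hS2 hS3 using hS
  have hPK : ∀ k, convexHull ℝ (S k : Set (EE r)) ⊆ K := fun k => convexHull_min (hS2 k) hK.cvx
  have hA := fun σ (hσ : 0 < σ) => layer hK.ne hK.cpt (r + 1) a ha hσ
  have hB := fun i σ (hσ : 0 < σ) => layer (good_PP hK _).ne (good_PP hK _).cpt (r + 1) (b i)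
    (hb i) hσ
  have hpc := fun k => poly_coef (hS1 k)
    (ne_top_of_le_ne_top (hA 1 one_pos).1 (W_mono (good_hull (hS1 k)).ne (hPK k) one_pos))
    (fun i => ne_top_of_le_ne_top (hB i 1 one_pos).1
      (W_mono ((good_hull (hS1 k)).ne.image _) (Set.image_mono (hPK k)) one_pos))
  choose ω β h1 h2 h3 using hpc
  have t1 := coeff_tendsto (r + 1) ω (fun c => a c * Real.Gamma (((c : ℝ) + 2) / 2)) (by
    intro σ hσ
    simp only [← h1 _ σ hσ, ← (hA σ hσ).2]
    refine (ENNReal.tendsto_toReal (hA σ hσ).1).comp (W_tendsto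
      (fun k => (good_hull (hS1 k)).ne) hPK (fun k z hz => ?_) hσ (hA σ hσ).1)
    obtain ⟨w, hw, hzw⟩ := hS3 k z hz
    exact ⟨w, subset_convexHull ℝ _ hw, hzw⟩) c hc
  have t2 := fun i => coeff_tendsto (r + 1) (fun k => β k i)
    (fun c => b i c * Real.Gamma (((c : ℝ) + 2) / 2)) (by
    intro σ hσ
    simp only [← h2 _ i σ hσ, ← (hB i σ hσ).2]
    refine (ENNReal.tendsto_toReal (hB i σ hσ).1).comp (W_tendsto
      (fun k => (good_hull (hS1 k)).ne.image _) (fun k => Set.image_mono (hPK k))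
      ?_ hσ (hB i σ hσ).1)
    rintro k _ ⟨z, hz, rfl⟩
    obtain ⟨w, hw, hzw⟩ := hS3 k z hz
    exact ⟨_, ⟨w, subset_convexHull ℝ _ hw, rfl⟩, (PP_dist (by simp) _ _).trans hzw⟩) c hc
  have t3 := le_of_tendsto_of_tendsto' (t1.const_mul (c : ℝ))
    (tendsto_finset_sum Finset.univ fun i _ => t2 i) (fun k => h3 k c)
  have hG : 0 < Real.Gamma (((c : ℝ) + 2) / 2) := Real.Gamma_pos_of_pos (by positivity)
  rw [← Finset.sum_mul, ← mul_assoc] at t3
  exact le_of_mul_le_mul_right t3 hG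

end Pool.Agent.CG
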